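import Mathlib
/-!
# The planar Brunn-Minkowski inequality for compact sets
-/
set_option autoImplicit false
namespace Pool.Agent.Helper49.LS
open MeasureTheory Set
open scoped ENNReal Pointwise

theorem bm1_compact {K L : Set ℝ} (hK : IsCompact K) (hL : IsCompact L) (hKn : K.Nonempty)
    (hLn : L.Nonempty) : volume K + volume L ≤ volume (K + L) := by
  obtain ⟨M, hM, hM2⟩ := hK.exists_isGreatest hKn
  obtain ⟨m, hm, hm2⟩ := hL.exists_isLeast hLn
  have h1 : (m +ᵥ K) ∪ (M +ᵥ L) ⊆ K + L := by
    rintro x (⟨y, hy, rfl⟩ | ⟨y, hy, rfl⟩)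
    · exact ⟨y, hy, m, hm, add_comm _ _⟩
    · exact ⟨M, hM, y, hy, rfl⟩
  have h2 : (m +ᵥ K) ∩ (M +ᵥ L) ⊆ {M + m} := by
    rintro x ⟨⟨y, hy, rfl⟩, ⟨z, hz, hxz⟩⟩
    have a1 : y ≤ M := hM2 hy
    have a2 : m ≤ z := hm2 hz
    have a3 : M + z = m + y := hxz
    show m + y = M + m
    linarith
  have h3 : volume ((m +ᵥ K) ∪ (M +ᵥ L)) = volume (m +ᵥ K) + volume (M +ᵥ L) := by
    apply measure_union₀ (hL.vadd M).measurableSet.nullMeasurableSet
    exact measure_mono_null h2 (measure_singleton _)
  calc volume K + volume L = volume (m +ᵥ K) + volume (M +ᵥ L) := by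
        rw [measure_vadd, measure_vadd]
    _ = volume ((m +ᵥ K) ∪ (M +ᵥ L)) := h3.symm
    _ ≤ volume (K + L) := measure_mono h1

theorem bm1_empty {X Y Z : Set ℝ} (hXn : X.Nonempty) (h : X + Y ⊆ Z) : volume Y ≤ volume Z := by
  obtain ⟨x, hx⟩ := hXn
  calc volume Y = volume (x +ᵥ Y) := (measure_vadd _ _ _).symm
    _ ≤ volume Z := by
        apply measure_mono
        rintro _ ⟨y, hy, rfl⟩
        exact h ⟨x, hx, y, hy, rfl⟩

/-- Brunn-Minkowski on the line. -/
theorem bm1 {X Y Z : Set ℝ} (hX : MeasurableSet X) (hY : MeasurableSet Y) (hXn : X.Nonempty)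
    (hYn : Y.Nonempty) (h : X + Y ⊆ Z) : volume X + volume Y ≤ volume Z := by
  have hYX : Y + X ⊆ Z := by rwa [add_comm]
  -- compact in both
  have h1 : ∀ K ⊆ X, IsCompact K → ∀ L ⊆ Y, IsCompact L → volume K + volume L ≤ volume Z := by
    intro K hK hKc L hL hLc
    rcases K.eq_empty_or_nonempty with rfl | hKn
    · rw [measure_empty, zero_add]
      exact (measure_mono hL).trans (bm1_empty hXn h)
    rcases L.eq_empty_or_nonempty with rfl | hLn
    · rw [measure_empty, add_zero]
      exact (measure_mono hK).trans (bm1_empty hYn hYX)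
    exact (bm1_compact hKc hLc hKn hLn).trans (measure_mono ((Set.add_subset_add hK hL).trans h))
  have h2 : ∀ L ⊆ Y, IsCompact L → volume X + volume L ≤ volume Z := by
    intro L hL hLc
    have hfin : volume L ≠ ⊤ := hLc.measure_lt_top.ne
    have h3 : volume X ≤ volume Z - volume L := by
      rw [hX.measure_eq_iSup_isCompact]
      refine iSup₂_le fun K hK => iSup_le fun hKc => ?_
      exact ENNReal.le_sub_of_add_le_right hfin (h1 K hK hKc L hL hLc)
    calc volume X + volume L ≤ (volume Z - volume L) + volume L := by gcongr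
      _ = volume Z := tsub_add_cancel_of_le ((measure_mono hL).trans (bm1_empty hXn h))
  by_cases hXf : volume X = ⊤
  · have := h2 ∅ (empty_subset _) isCompact_empty
    rw [hXf, measure_empty, add_zero, top_le_iff] at this
    rw [this]
    exact le_top
  have h3 : volume Y ≤ volume Z - volume X := by
    rw [hY.measure_eq_iSup_isCompact]
    refine iSup₂_le fun L hL => iSup_le fun hLc => ?_
    exact ENNReal.le_sub_of_add_le_left hXf (h2 L hL hLc)
  calc volume X + volume Y ≤ volume X + (volume Z - volume X) := by gcongr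
    _ = volume Z := add_tsub_cancel_of_le (bm1_empty hYn hYX)

/-- The length of the section of `A` over `x`. -/
noncomputable def sec (A : Set (ℝ × ℝ)) (x : ℝ) : ℝ := (volume (Prod.mk x ⁻¹' A)).toReal

theorem sec_nonneg (A : Set (ℝ × ℝ)) (x : ℝ) : 0 ≤ sec A x := ENNReal.toReal_nonneg

theorem measurable_sec {A : Set (ℝ × ℝ)} (hA : MeasurableSet A) : Measurable (sec A) :=
  (measurable_measure_prodMk_left hA).ennreal_toReal

theorem sec_lt_top {A : Set (ℝ × ℝ)} (hA : IsCompact A) (x : ℝ) :
    volume (Prod.mk x ⁻¹' A) < ⊤ := by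
  have : Prod.mk x ⁻¹' A ⊆ Prod.snd '' A := by
    intro y hy
    exact ⟨(x, y), hy, rfl⟩
  exact (measure_mono this).trans_lt (hA.image continuous_snd).measure_lt_top

theorem bddAbove_sec {A : Set (ℝ × ℝ)} (hA : IsCompact A) : BddAbove (range (sec A)) := by
  refine ⟨(volume (Prod.snd '' A)).toReal, ?_⟩
  rintro _ ⟨x, rfl⟩
  apply ENNReal.toReal_mono (hA.image continuous_snd).measure_lt_top.ne
  apply measure_mono
  intro y hy
  exact ⟨(x, y), hy, rfl⟩

theorem lintegral_sec {A : Set (ℝ × ℝ)} (hA : IsCompact A) :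
    ∫⁻ x, ENNReal.ofReal (sec A x) = volume A := by
  rw [Measure.volume_eq_prod, Measure.prod_apply hA.measurableSet]
  apply lintegral_congr
  intro x
  exact ENNReal.ofReal_toReal (sec_lt_top hA x).ne

theorem layer {A : Set (ℝ × ℝ)} (hA : IsCompact A) {α : ℝ} (hα : 0 < α) :
    volume A / ENNReal.ofReal α = ∫⁻ t in Ioi (0 : ℝ), volume {x | t < sec A x / α} := by
  have h1 := lintegral_eq_lintegral_meas_lt (μ := (volume : Measure ℝ))
    (f := fun x => sec A x / α)
    (Filter.Eventually.of_forall fun x => div_nonneg (sec_nonneg A x) hα.le)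
    ((measurable_sec hA.measurableSet).div_const α).aemeasurable
  rw [← h1, ← lintegral_sec hA, div_eq_mul_inv, ← lintegral_mul_const _
    (measurable_sec hA.measurableSet).ennreal_ofReal]
  apply lintegral_congr
  intro x
  rw [ENNReal.ofReal_div_of_pos hα, div_eq_mul_inv]

theorem bm_layer {A B : Set (ℝ × ℝ)} (hA : IsCompact A) (hB : IsCompact B)
    {α β : ℝ} (hα : 0 < α) (hβ : 0 < β) (hαA : IsLUB (range (sec A)) α)
    (hβB : IsLUB (range (sec B)) β) :
    volume A / ENNReal.ofReal α + volume B / ENNReal.ofReal β ≤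
      volume (A + B) / ENNReal.ofReal (α + β) := by
  have hC : IsCompact (A + B) := hA.add hB
  have hab : 0 < α + β := by linarith
  have meas : ∀ {D : Set (ℝ × ℝ)}, IsCompact D → ∀ δ t : ℝ, MeasurableSet {x | t < sec D x / δ} := by
    intro D hD δ t
    exact measurableSet_lt measurable_const ((measurable_sec hD.measurableSet).div_const δ)
  rw [layer hA hα, layer hB hβ, layer hC hab, ← lintegral_add_left']
  · apply lintegral_mono_ae
    refine (ae_restrict_iff' measurableSet_Ioi).2 (Filter.Eventually.of_forall fun t ht => ?_)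
    have ht : 0 < t := ht
    by_cases ht1 : t < 1
    · apply bm1 (meas hA α t) (meas hB β t)
      · obtain ⟨_, ⟨x, rfl⟩, hx⟩ := (lt_isLUB_iff hαA).1 (show t * α < α by nlinarith)
        exact ⟨x, by show t < sec A x / α; rwa [lt_div_iff₀ hα]⟩
      · obtain ⟨_, ⟨x, rfl⟩, hx⟩ := (lt_isLUB_iff hβB).1 (show t * β < β by nlinarith)
        exact ⟨x, by show t < sec B x / β; rwa [lt_div_iff₀ hβ]⟩
      · rintro _ ⟨x, hx, y, hy, rfl⟩
        have hx : t < sec A x / α := hx
        have hy : t < sec B y / β := hy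
        rw [lt_div_iff₀ hα] at hx
        rw [lt_div_iff₀ hβ] at hy
        show t < sec (A + B) (x + y) / (α + β)
        rw [lt_div_iff₀ hab]
        have hsub : (Prod.mk x ⁻¹' A) + (Prod.mk y ⁻¹' B) ⊆ Prod.mk (x + y) ⁻¹' (A + B) := by
          rintro _ ⟨u, hu, v, hv, rfl⟩
          exact ⟨(x, u), hu, (y, v), hv, rfl⟩
        have hxn : (Prod.mk x ⁻¹' A).Nonempty := by
          by_contra hne
          rw [not_nonempty_iff_eq_empty] at hne
          have : sec A x = 0 := by unfold sec; rw [hne]; simp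
          rw [this] at hx
          have := mul_pos ht hα
          linarith
        have hyn : (Prod.mk y ⁻¹' B).Nonempty := by
          by_contra hne
          rw [not_nonempty_iff_eq_empty] at hne
          have : sec B y = 0 := by unfold sec; rw [hne]; simp
          rw [this] at hy
          have := mul_pos ht hβ
          linarith
        have h5 := bm1 (measurable_prodMk_left hA.measurableSet)
          (measurable_prodMk_left hB.measurableSet) hxn hyn hsub
        have h6 : sec A x + sec B y ≤ sec (A + B) (x + y) := by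
          unfold sec
          rw [← ENNReal.toReal_add (sec_lt_top hA x).ne (sec_lt_top hB y).ne]
          exact ENNReal.toReal_mono (sec_lt_top hC _).ne h5
        nlinarith
    · push Not at ht1
      have e1 : {x | t < sec A x / α} = ∅ := by
        rw [eq_empty_iff_forall_notMem]
        intro x hx
        have hx : t < sec A x / α := hx
        rw [lt_div_iff₀ hα] at hx
        have := hαA.1 ⟨x, rfl⟩
        nlinarith
      have e2 : {x | t < sec B x / β} = ∅ := by
        rw [eq_empty_iff_forall_notMem]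
        intro x hx
        have hx : t < sec B x / β := hx
        rw [lt_div_iff₀ hβ] at hx
        have := hβB.1 ⟨x, rfl⟩
        nlinarith
      simp only [e1, e2]
      simp
  · apply AEMeasurable.restrict
    apply Antitone.measurable (f := fun t : ℝ => volume {x | t < sec A x / α}) _ |>.aemeasurable
    intro s t hst
    exact measure_mono fun x hx => lt_of_le_of_lt hst hx

theorem exists_isLUB_sec {A : Set (ℝ × ℝ)} (hA : IsCompact A) :
    ∃ α, IsLUB (range (sec A)) α := ⟨_, isLUB_csSup (range_nonempty _) (bddAbove_sec hA)⟩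

theorem vol_zero_of_lub {A : Set (ℝ × ℝ)} (hA : IsCompact A) {α : ℝ}
    (hα : IsLUB (range (sec A)) α) (h0 : α ≤ 0) : volume A = 0 := by
  rw [← lintegral_sec hA]
  have : ∀ x, sec A x = 0 := fun x => le_antisymm ((hα.1 ⟨x, rfl⟩).trans h0) (sec_nonneg A x)
  simp [this]

/-- Brunn-Minkowski for compact subsets of `ℝ × ℝ`. -/
theorem bm_prod {A B : Set (ℝ × ℝ)} (hA : IsCompact A) (hB : IsCompact B) (hAn : A.Nonempty)
    (hBn : B.Nonempty) :
    (√(volume A).toReal + √(volume B).toReal) ^ 2 ≤ (volume (A + B)).toReal := by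
  have hC : IsCompact (A + B) := hA.add hB
  obtain ⟨α, hα⟩ := exists_isLUB_sec hA
  obtain ⟨β, hβ⟩ := exists_isLUB_sec hB
  by_cases h1 : α ≤ 0
  · rw [vol_zero_of_lub hA hα h1]
    simp only [ENNReal.toReal_zero, Real.sqrt_zero, zero_add, Real.sq_sqrt ENNReal.toReal_nonneg]
    apply ENNReal.toReal_mono hC.measure_lt_top.ne
    obtain ⟨a, ha⟩ := hAn
    calc volume B = volume (a +ᵥ B) := (measure_vadd _ _ _).symm
      _ ≤ volume (A + B) := by
        apply measure_mono
        rintro _ ⟨y, hy, rfl⟩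
        exact ⟨a, ha, y, hy, rfl⟩
  by_cases h2 : β ≤ 0
  · rw [vol_zero_of_lub hB hβ h2]
    simp only [ENNReal.toReal_zero, Real.sqrt_zero, add_zero, Real.sq_sqrt ENNReal.toReal_nonneg]
    apply ENNReal.toReal_mono hC.measure_lt_top.ne
    obtain ⟨b, hb⟩ := hBn
    calc volume A = volume (b +ᵥ A) := (measure_vadd _ _ _).symm
      _ ≤ volume (A + B) := by
        apply measure_mono
        rintro _ ⟨y, hy, rfl⟩
        exact ⟨y, hy, b, hb, add_comm _ _⟩
  push Not at h1 h2
  have h12 : 0 < α + β := by linarith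
  have h3 := bm_layer hA hB h1 h2 hα hβ
  have h4 := ENNReal.toReal_mono (ENNReal.div_lt_top hC.measure_lt_top.ne
    (ENNReal.ofReal_pos.2 h12).ne').ne h3
  rw [ENNReal.toReal_add (ENNReal.div_lt_top hA.measure_lt_top.ne
    (ENNReal.ofReal_pos.2 h1).ne').ne (ENNReal.div_lt_top hB.measure_lt_top.ne
    (ENNReal.ofReal_pos.2 h2).ne').ne, ENNReal.toReal_div, ENNReal.toReal_div,
    ENNReal.toReal_div, ENNReal.toReal_ofReal h1.le, ENNReal.toReal_ofReal h2.le,
    ENNReal.toReal_ofReal h12.le] at h4
  set P := (volume A).toReal with hP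
  set Q := (volume B).toReal with hQ
  set R := (volume (A + B)).toReal with hR
  have hP0 : 0 ≤ P := ENNReal.toReal_nonneg
  have hQ0 : 0 ≤ Q := ENNReal.toReal_nonneg
  rw [div_add_div _ _ h1.ne' h2.ne', div_le_div_iff₀ (by positivity) h12] at h4
  have hsP := Real.sq_sqrt hP0
  have hsQ := Real.sq_sqrt hQ0
  set p := √P
  set q := √Q
  have hpos : 0 < α * β := mul_pos h1 h2
  have key : (p + q) ^ 2 * (α * β) ≤ R * (α * β) := by
    have e : (p + q) ^ 2 * (α * β) ≤ (P * β + α * Q) * (α + β) := by
      rw [← hsP, ← hsQ]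
      nlinarith [sq_nonneg (p * β - q * α)]
    exact e.trans h4
  exact le_of_mul_le_mul_right key hpos

/-- Brunn-Minkowski in the plane. -/
theorem bm_fin {A B : Set (Fin 2 → ℝ)} (hA : IsCompact A) (hAn : A.Nonempty)
    (hB : IsCompact B) (hBn : B.Nonempty) :
    (√(volume A).toReal + √(volume B).toReal) ^ 2 ≤ (volume (A + B)).toReal := by
  let f : (ℝ × ℝ) ≃ₜ (Fin 2 → ℝ) := (Homeomorph.finTwoArrow (X := ℝ)).symm
  have hf : MeasurePreserving f := (volume_preserving_finTwoArrow ℝ).symm
  have hv : ∀ D : Set (Fin 2 → ℝ), MeasurableSet D → volume (f ⁻¹' D) = volume D :=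
    fun D hD => hf.measure_preimage hD.nullMeasurableSet
  have hadd : ∀ p q, f (p + q) = f p + f q := by
    intro p q
    ext i
    fin_cases i <;> rfl
  have hpre : f ⁻¹' (A + B) = f ⁻¹' A + f ⁻¹' B := by
    ext p
    constructor
    · rintro ⟨a, ha, b, hb, hab⟩
      refine ⟨f.symm a, by simpa using ha, f.symm b, by simpa using hb, ?_⟩
      apply f.injective
      show f (f.symm a + f.symm b) = f p
      rw [hadd, f.apply_symm_apply, f.apply_symm_apply]
      exact hab
    · rintro ⟨a, ha, b, hb, rfl⟩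
      exact ⟨f a, ha, f b, hb, (hadd a b).symm⟩
  rw [← hv A hA.measurableSet, ← hv B hB.measurableSet, ← hv _ (hA.add hB).measurableSet, hpre]
  refine bm_prod (f.isCompact_preimage.2 hA) (f.isCompact_preimage.2 hB) ?_ ?_
  · exact hAn.preimage f.surjective
  · exact hBn.preimage f.surjective

theorem bm2 {A B C : Set (Fin 2 → ℝ)} (_ : Convex ℝ A) (hAc : IsCompact A) (hAn : A.Nonempty)
    (_ : Convex ℝ B) (hBc : IsCompact B) (hBn : B.Nonempty) (_ : MeasurableSet C)
    (hCf : volume C ≠ ⊤) (h : A + B ⊆ C) :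
    (√(volume A).toReal + √(volume B).toReal) ^ 2 ≤ (volume C).toReal :=
  (bm_fin hAc hAn hBc hBn).trans (ENNReal.toReal_mono hCf (measure_mono h))

end Pool.Agent.Helper49.LS
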